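import Pool.Agent.helper17.CH.SpecV
import Pool.Agent.Lib.PrimeSums

/-!
# Project CH, row RGH: character sums over rough numbers
-/

set_option autoImplicit false

namespace Pool.Agent.CH

open Finset ArithmeticFunction

open Classical in
private lemma RGH_ind (M n : ℕ) :
    ∑ d ∈ (primorial M).divisors with d ∣ n, (moebius d : ℤ) =
      if ∀ p : ℕ, p.Prime → p ∣ n → M < p then 1 else 0 := by
  have hP : primorial M ≠ 0 := primorial_ne_zero M
  have h1 : (primorial M).divisors.filter (fun d => d ∣ n) = (Nat.gcd (primorial M) n).divisors := by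
    ext d
    simp only [mem_filter, Nat.mem_divisors, Nat.dvd_gcd_iff]
    constructor
    · rintro ⟨⟨h1, h2⟩, h3⟩
      exact ⟨⟨h1, h3⟩, Nat.gcd_ne_zero_left hP⟩
    · rintro ⟨⟨h1, h3⟩, h2⟩
      exact ⟨⟨h1, hP⟩, h3⟩
  rw [h1, ← coe_mul_zeta_apply, moebius_mul_coe_zeta, one_apply]
  refine if_congr ?_ rfl rfl
  constructor
  · intro h p hp hpn
    by_contra hlt
    have h2 : p ∣ primorial M := hp.dvd_primorial_iff.2 (not_lt.1 hlt)
    have h3 : p ∣ 1 := h ▸ Nat.dvd_gcd h2 hpn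
    exact hp.one_lt.ne' (Nat.dvd_one.1 h3)
  · intro h
    by_contra hne
    obtain ⟨p, hp, hpd⟩ := Nat.exists_prime_and_dvd hne
    have h2 := Nat.dvd_gcd_iff.1 hpd
    have h3 := h p hp h2.2
    have h4 := hp.dvd_primorial_iff.1 h2.1
    omega

private lemma RGH_mul (N d : ℕ) (hd : d ≠ 0) (f : ℕ → ℂ) :
    ∑ n ∈ Ioc 0 N with d ∣ n, f n = ∑ m ∈ Ioc 0 (N / d), f (d * m) := by
  symm
  have hd' : 0 < d := Nat.pos_of_ne_zero hd
  refine sum_bij (fun m _ => d * m) ?_ ?_ ?_ ?_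
  · intro m hm
    have h := mem_Ioc.1 hm
    refine mem_filter.2 ⟨mem_Ioc.2 ⟨Nat.mul_pos hd' h.1, ?_⟩, dvd_mul_right _ _⟩
    exact (Nat.mul_le_mul_left d h.2).trans (Nat.mul_div_le N d)
  · intro a _ b _ hab
    exact Nat.eq_of_mul_eq_mul_left hd' hab
  · intro n hn
    obtain ⟨h1, k, rfl⟩ := mem_filter.1 hn
    have h2 := mem_Ioc.1 h1
    refine ⟨k, mem_Ioc.2 ⟨?_, ?_⟩, rfl⟩
    · exact Nat.pos_of_ne_zero fun h0 => by simp [h0] at h2
    · rw [Nat.le_div_iff_mul_le hd']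
      rw [Nat.mul_comm]
      exact h2.2
  · intro m _
    rfl

private lemma RGH_exp (y : ℝ) (hy : 0 ≤ y) (N : ℕ) (f : ℕ → ℂ)
    (hf : ∀ d m : ℕ, d ≠ 0 → m ≠ 0 → f (d * m) = f d * f m) [DecidablePred (rgh y)] :
    ∑ n ∈ Ioc 0 N with rgh y n, f n =
      ∑ d ∈ (primorial ⌊y⌋₊).divisors, ((moebius d : ℤ) : ℂ) * f d * ∑ m ∈ Ioc 0 (N / d), f m := by
  classical
  have h1 : ∀ d ∈ (primorial ⌊y⌋₊).divisors,
      ((moebius d : ℤ) : ℂ) * f d * ∑ m ∈ Ioc 0 (N / d), f m =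
        ∑ n ∈ Ioc 0 N, if d ∣ n then ((moebius d : ℤ) : ℂ) * f n else 0 := by
    intro d hd
    have hd0 : d ≠ 0 := fun h => by
      subst h
      have := (Nat.mem_divisors.1 hd)
      exact this.2 (Nat.eq_zero_of_zero_dvd this.1)
    rw [← sum_filter, RGH_mul N d hd0 (fun n => ((moebius d : ℤ) : ℂ) * f n), mul_assoc, mul_sum, mul_sum]
    refine sum_congr rfl fun m hm => ?_
    have hm0 : m ≠ 0 := (Nat.pos_iff_ne_zero.1 (mem_Ioc.1 hm).1)
    rw [hf d m hd0 hm0]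
  rw [sum_congr rfl h1, sum_comm, sum_filter]
  refine sum_congr rfl fun n hn => ?_
  have hn0 : n ≠ 0 := (Nat.pos_iff_ne_zero.1 (mem_Ioc.1 hn).1)
  have h2 := RGH_ind ⌊y⌋₊ n
  have h3 : ∑ d ∈ (primorial ⌊y⌋₊).divisors, (if d ∣ n then ((moebius d : ℤ) : ℂ) * f n else 0) =
      (((∑ d ∈ (primorial ⌊y⌋₊).divisors with d ∣ n, (moebius d : ℤ)) : ℤ) : ℂ) * f n := by
    rw [← sum_filter]
    push_cast
    rw [sum_mul]
  rw [h3, h2]
  by_cases hr : rgh y n
  · have h4 : ∀ p : ℕ, p.Prime → p ∣ n → ⌊y⌋₊ < p := fun p hp hpn =>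
      (Nat.floor_lt hy).2 (hr.2 p hp hpn)
    rw [if_pos hr, if_pos h4]
    simp
  · have h4 : ¬ ∀ p : ℕ, p.Prime → p ∣ n → ⌊y⌋₊ < p := fun h =>
      hr ⟨hn0, fun p hp hpn => (Nat.floor_lt hy).1 (h p hp hpn)⟩
    rw [if_neg hr, if_neg h4]
    simp

private lemma RGH_euler (M : ℕ) (hM : 2 ≤ M) (ε : ℝ) (hε : ε ≠ 1)
    (h3 : ∀ p : ℕ, p.Prime → p ≤ M → (p : ℝ) ^ ε ≤ 3) :
    ∑ d ∈ (primorial M).divisors, (d : ℝ) ^ (ε - 1) ≤ Real.exp 12 * Real.log M ^ 3 := by
  let g : ArithmeticFunction ℝ := ⟨fun n => (n : ℝ) ^ (ε - 1), by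
    simp only [Nat.cast_zero]
    exact Real.zero_rpow (sub_ne_zero.2 hε)⟩
  have hgv : ∀ n, g n = (n : ℝ) ^ (ε - 1) := fun n => rfl
  have hg : g.IsMultiplicative := by
    refine ⟨?_, ?_⟩
    · rw [hgv]
      simp
    · intro m n _
      rw [hgv, hgv, hgv]
      push_cast
      exact Real.mul_rpow (Nat.cast_nonneg m) (Nat.cast_nonneg n)
  have h1 := hg.prodPrimeFactors_one_add_of_squarefree (squarefree_primorial M)
  have h2 : ∑ d ∈ (primorial M).divisors, (d : ℝ) ^ (ε - 1) =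
      ∏ p ∈ Nat.primesLE M, (1 + (p : ℝ) ^ (ε - 1)) := by
    rw [← primeFactors_primorial]
    exact h1.symm
  rw [h2]
  have h4 : ∏ p ∈ Nat.primesLE M, (1 + (p : ℝ) ^ (ε - 1)) ≤
      ∏ p ∈ Nat.primesLE M, Real.exp (3 * (1 / (p : ℝ))) := by
    refine prod_le_prod (fun p _ => by positivity) fun p hp => ?_
    have hp1 : p.Prime ∧ p ≤ M := by
      rw [Nat.primesLE_eq_filter_range, mem_filter, mem_range] at hp
      exact ⟨hp.2, by omega⟩
    have hp0 : (0 : ℝ) < p := by exact_mod_cast hp1.1.pos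
    have h5 : (p : ℝ) ^ (ε - 1) ≤ 3 * (1 / (p : ℝ)) := by
      rw [Real.rpow_sub hp0, Real.rpow_one, div_eq_mul_one_div]
      exact mul_le_mul_of_nonneg_right (h3 p hp1.1 hp1.2) (by positivity)
    have h6 := Real.add_one_le_exp (3 * (1 / (p : ℝ)))
    linarith
  refine h4.trans ?_
  rw [← Real.exp_sum, ← mul_sum]
  have h5 := Pool.Agent.Lib.PrimeSums.sum_inv_le M hM
  have hM2 : (2 : ℝ) ≤ M := by exact_mod_cast hM
  have hlog : 0 < Real.log M := Real.log_pos (by linarith)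
  calc Real.exp (3 * ∑ p ∈ Nat.primesLE M, 1 / (p : ℝ))
      ≤ Real.exp (3 * (Real.log (Real.log M) + 4)) := Real.exp_le_exp.2 (by linarith)
    _ = Real.exp (12 + Real.log (Real.log M ^ 3)) := by
        rw [Real.log_pow]
        congr 1
        push_cast
        ring
    _ = Real.exp 12 * Real.log M ^ 3 := by
        rw [Real.exp_add, Real.exp_log (by positivity)]

private lemma RGH_nit_mul (t : ℝ) (d m : ℕ) (hd : d ≠ 0) (hm : m ≠ 0) :
    nit t ((d * m : ℕ) : ℝ) = nit t d * nit t m := by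
  unfold nit
  have hd0 : (d : ℝ) ≠ 0 := by exact_mod_cast hd
  have hm0 : (m : ℝ) ≠ 0 := by exact_mod_cast hm
  rw [← Complex.exp_add]
  congr 1
  push_cast
  have h : Real.log ((d : ℝ) * m) = Real.log d + Real.log m := Real.log_mul hd0 hm0
  rw [show (((d : ℝ) * (m : ℝ) : ℝ)) = ((d : ℝ) * m) from rfl, h]
  push_cast
  ring

private lemma RGH_norm_le {q : ℕ} (χ : DirichletCharacter ℂ q) (t : ℝ) (n : ℕ) :
    ‖χ n * nit t n‖ ≤ 1 := by
  rw [norm_mul]
  have h1 : ‖nit t n‖ = 1 := by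
    unfold nit
    exact Complex.norm_exp_ofReal_mul_I _
  rw [h1, mul_one]
  exact χ.norm_le_one _

theorem RGH (h1 : CHS_stmt) : RGH_stmt := by
  intro A B K
  obtain ⟨B₁, x₁, hB⟩ := h1 (A + 3) B K
  refine ⟨B₁, 3 * Real.exp 12, max x₁ (Real.exp 2), by positivity, ?_⟩
  intro x hx q hq hqB χ t u ht1 ht2 hu _
  have hf : ∀ d m : ℕ, d ≠ 0 → m ≠ 0 →
      (fun n : ℕ => χ n * nit t n) (d * m) = (fun n : ℕ => χ n * nit t n) d * (fun n : ℕ => χ n * nit t n) m := by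
    intro d m hd hm
    show χ ((d * m : ℕ) : ZMod q) * nit t ((d * m : ℕ) : ℝ) = χ d * nit t d * (χ m * nit t m)
    rw [RGH_nit_mul t d m hd hm, Nat.cast_mul, map_mul]
    ring
  rw [RGH_exp (Real.exp (dl x)) (Real.exp_pos _).le ⌊u⌋₊ (fun n : ℕ => χ n * nit t n) hf]
  have hx1 : x₁ ≤ x := (le_max_left _ _).trans hx
  have hx2 : Real.exp 2 ≤ x := (le_max_right _ _).trans hx
  have hx0 : 0 < x := (Real.exp_pos 2).trans_le hx2
  have hlog2 : 2 ≤ Real.log x := (Real.le_log_iff_exp_le hx0).2 hx2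
  set lx := Real.log x with hlx
  set L := dl x with hL
  have hLdef : L = lx ^ (19 / 20 : ℝ) := rfl
  have hL1 : 1 < L := by
    rw [hLdef]
    exact Real.one_lt_rpow (by linarith) (by norm_num)
  have hLx : L ≤ lx := by
    rw [hLdef]
    calc lx ^ (19 / 20 : ℝ) ≤ lx ^ (1 : ℝ) :=
          Real.rpow_le_rpow_of_exponent_le (by linarith) (by norm_num)
      _ = lx := Real.rpow_one _
  have hu0 : 0 < u := by linarith
  set y := Real.exp L with hy
  have hy0 : 0 < y := Real.exp_pos L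
  have hM2 : 2 ≤ ⌊y⌋₊ := by
    apply Nat.le_floor
    have h := Real.add_one_le_exp L
    push_cast
    linarith
  set M := ⌊y⌋₊ with hM
  have hMy : (M : ℝ) ≤ y := Nat.floor_le hy0.le
  have hMR : (2 : ℝ) ≤ M := by exact_mod_cast hM2
  set ε : ℝ := 1 / L with hε
  have hε0 : 0 < ε := by positivity
  have hε1 : ε < 1 := by
    rw [hε, div_lt_one (by linarith)]
    exact hL1
  have hyε : y ^ ε = Real.exp 1 := by
    rw [hy, ← Real.exp_mul, hε]
    congr 1
    field_simp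
  have he3 : Real.exp 1 ≤ 3 := by
    have := Real.exp_one_lt_d9
    linarith
  have heul := RGH_euler M hM2 ε hε1.ne (fun p hp hpM => by
    have hpy : (p : ℝ) ≤ y := le_trans (by exact_mod_cast hpM) hMy
    calc (p : ℝ) ^ ε ≤ y ^ ε := Real.rpow_le_rpow (by positivity) hpy hε0.le
      _ = Real.exp 1 := hyε
      _ ≤ 3 := he3)
  have hlogM : Real.log M ≤ lx := by
    calc Real.log M ≤ Real.log y := Real.log_le_log (by linarith) hMy
      _ = L := Real.log_exp L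
      _ ≤ lx := hLx
  have hlogM0 : 0 ≤ Real.log M := Real.log_nonneg (by linarith)
  have hsum : ∑ d ∈ (primorial M).divisors, (d : ℝ) ^ (ε - 1) ≤ Real.exp 12 * lx ^ 3 := by
    refine heul.trans ?_
    gcongr
  set W : ℝ := 1 / lx ^ (A + 3) + 3 * Real.exp (-(Real.log u / L)) with hW
  have hW0 : 0 ≤ W := by positivity
  have hterm : ∀ d ∈ (primorial M).divisors,
      ‖((moebius d : ℤ) : ℂ) * (χ d * nit t d) * ∑ m ∈ Ioc 0 (⌊u⌋₊ / d), χ m * nit t m‖ ≤
        u * W * (d : ℝ) ^ (ε - 1) := by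
    intro d hd
    have hd0 : d ≠ 0 := fun h => by
      subst h
      have := (Nat.mem_divisors.1 hd)
      exact this.2 (Nat.eq_zero_of_zero_dvd this.1)
    have hd1 : (1 : ℝ) ≤ d := by exact_mod_cast Nat.one_le_iff_ne_zero.2 hd0
    have hdp : (0 : ℝ) < d := by linarith
    have hmu : ‖((moebius d : ℤ) : ℂ)‖ ≤ 1 := by
      have h := abs_moebius_le_one (n := d)
      rw [Complex.norm_intCast]
      exact_mod_cast h
    have hpre : ‖((moebius d : ℤ) : ℂ) * (χ d * nit t d)‖ ≤ 1 := by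
      rw [norm_mul]
      exact mul_le_one₀ hmu (norm_nonneg _) (RGH_norm_le χ t d)
    have hnd : ‖((moebius d : ℤ) : ℂ) * (χ d * nit t d) * ∑ m ∈ Ioc 0 (⌊u⌋₊ / d), χ m * nit t m‖ ≤
        ‖∑ m ∈ Ioc 0 (⌊u⌋₊ / d), χ m * nit t m‖ := by
      rw [norm_mul]
      exact mul_le_of_le_one_left (norm_nonneg _) hpre
    refine hnd.trans ?_
    have hdε : (d : ℝ) ^ (ε - 1) = (d : ℝ) ^ ε / d := by
      rw [Real.rpow_sub hdp, Real.rpow_one]
    have hdε1 : 1 ≤ (d : ℝ) ^ ε := Real.one_le_rpow hd1 hε0.le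
    rw [← Nat.floor_div_natCast]
    by_cases hc : y ≤ u / d
    · have h2 := hB x hx1 q hq hqB χ t (u / d) ht1 ht2 hc
      refine h2.trans ?_
      rw [hdε, hW]
      have h3 : 0 ≤ 3 * Real.exp (-(Real.log u / L)) := by positivity
      have h4 : 0 < lx ^ (A + 3) := by positivity
      calc u / d / lx ^ (A + 3) = u * (1 / lx ^ (A + 3)) * (1 / d) := by field_simp
        _ ≤ u * (1 / lx ^ (A + 3) + 3 * Real.exp (-(Real.log u / L))) * ((d : ℝ) ^ ε / d) := by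
          gcongr
          linarith
    · have hc' : u / d < y := not_le.1 hc
      have h2 : ‖∑ m ∈ Ioc 0 ⌊u / (d : ℝ)⌋₊, χ m * nit t m‖ ≤ u / d := by
        calc ‖∑ m ∈ Ioc 0 ⌊u / (d : ℝ)⌋₊, χ m * nit t m‖
            ≤ ∑ m ∈ Ioc 0 ⌊u / (d : ℝ)⌋₊, ‖χ m * nit t m‖ := norm_sum_le _ _
          _ ≤ ∑ m ∈ Ioc 0 ⌊u / (d : ℝ)⌋₊, 1 := sum_le_sum fun m _ => RGH_norm_le χ t m
          _ = (⌊u / (d : ℝ)⌋₊ : ℝ) := by simp
          _ ≤ u / d := Nat.floor_le (by positivity)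
      refine h2.trans ?_
      have h3 : 1 ≤ 3 * Real.exp (-(Real.log u / L)) * (d : ℝ) ^ ε := by
        have h4 : u / y ≤ d := by
          rw [div_lt_iff₀ hdp] at hc'
          rw [div_le_iff₀ hy0]
          linarith
        have h5 : (u / y) ^ ε ≤ (d : ℝ) ^ ε := Real.rpow_le_rpow (by positivity) h4 hε0.le
        have h6 : (u / y) ^ ε = Real.exp (Real.log u / L) / Real.exp 1 := by
          rw [Real.div_rpow hu0.le hy0.le, hyε, Real.rpow_def_of_pos hu0, hε, mul_one_div]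
        rw [h6] at h5
        have h7 : 0 < Real.exp (-(Real.log u / L)) := Real.exp_pos _
        calc (1 : ℝ) = Real.exp 1 * Real.exp (-(Real.log u / L)) *
              (Real.exp (Real.log u / L) / Real.exp 1) := by
              rw [Real.exp_neg]
              field_simp
          _ ≤ 3 * Real.exp (-(Real.log u / L)) * (d : ℝ) ^ ε := by
              gcongr
      rw [hdε, hW]
      have h8 : 0 ≤ 1 / lx ^ (A + 3) := by positivity
      calc u / d = u * 1 * (1 / d) := by ring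
        _ ≤ u * (3 * Real.exp (-(Real.log u / L)) * (d : ℝ) ^ ε) * (1 / d) := by gcongr
        _ ≤ u * ((1 / lx ^ (A + 3) + 3 * Real.exp (-(Real.log u / L))) * (d : ℝ) ^ ε) * (1 / d) := by
          gcongr
          linarith
        _ = u * (1 / lx ^ (A + 3) + 3 * Real.exp (-(Real.log u / L))) * ((d : ℝ) ^ ε / d) := by
          ring
  calc ‖∑ d ∈ (primorial M).divisors, ((moebius d : ℤ) : ℂ) * (χ d * nit t d) *
        ∑ m ∈ Ioc 0 (⌊u⌋₊ / d), χ m * nit t m‖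
      ≤ ∑ d ∈ (primorial M).divisors, u * W * (d : ℝ) ^ (ε - 1) := norm_sum_le_of_le _ hterm
    _ = u * W * ∑ d ∈ (primorial M).divisors, (d : ℝ) ^ (ε - 1) := by rw [mul_sum]
    _ ≤ u * W * (Real.exp 12 * lx ^ 3) := by gcongr
    _ = Real.exp 12 * u * (1 / lx ^ A + 3 * (lx ^ 3 * Real.exp (-(Real.log u / L)))) := by
        rw [hW, pow_add]
        have : lx ^ 3 ≠ 0 := by positivity
        have : lx ^ A ≠ 0 := by positivity
        field_simp
    _ ≤ 3 * Real.exp 12 * u * (lx ^ 3 * Real.exp (-(Real.log u / L)) + 1 / lx ^ A) := by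
        have h9 : 0 ≤ Real.exp 12 * u * (1 / lx ^ A) := by positivity
        nlinarith [h9]

end Pool.Agent.CH
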